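import Pool.Agent.R391.FS.Compose
import Pool.Agent.R391.FS.Lyapunov

set_option autoImplicit false

/-!
# MP_2806c7_co: fair splitting of cookies with many uncut cookies (Q1: TRUE)

Paper proof by helper107, formalised by helper391.  For all `r ≥ 1`, `n`, `m` and all finite Borel
measures on `[0,1]` without atoms there is a fair distribution with at most `(r-1)m` cut cookies in
which every child has at least `⌊(n - m(r-1))/r⌋` full cookies.
-/

namespace Pool.Agent.Results.MP_2806c7_co.FairSplitting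

open MeasureTheory

/-- **Q1 of MP_2806c7 is true.** -/
theorem result (r n m : ℕ) (hr : 0 < r)
    (μ : Fin n → Fin m → Measure unitInterval) (hfin : ∀ k j, IsFiniteMeasure (μ k j))
    (hna : ∀ k j (a : unitInterval), μ k j {a} = 0) :
    ∃ A : Fin n → Fin r → Set unitInterval,
      (∀ k c, MeasurableSet (A k c)) ∧
      (∀ k c d, c ≠ d → Disjoint (A k c) (A k d)) ∧
      (∀ k, ⋃ c, A k c = Set.univ) ∧
      (∀ c j, ∑ k, (μ k j).real (A k c) = (1 / (r : ℝ)) * ∑ k, (μ k j).real Set.univ) ∧
      {k | ∀ c, A k c ≠ Set.univ}.ncard ≤ (r - 1) * m ∧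
      ∀ c, ⌊((n : ℝ) - m * (r - 1)) / r⌋ ≤ ({k | A k c = Set.univ}.ncard : ℤ) := by
  classical
  obtain ⟨x, x1, x2, x3, x4, x5⟩ := R391.FS.GG_all m r hr (Fin n) Finset.univ
    (fun k j => (μ k j).real Set.univ)
  simp only [Fintype.card_fin, Finset.card_univ] at x3 x4 x5
  have x4' : (Finset.univ.filter (fun k => ∀ c, x k c ≠ 1)).card ≤ m * (r - 1) := by
    convert x4
  have x5' : ∀ c, ((n : ℤ) - ((m * (r - 1) : ℕ) : ℤ)) / (r : ℤ) ≤
      ((Finset.univ.filter (fun k => x k c = 1)).card : ℤ) := by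
    intro c
    convert x5 c
  have huniq : ∀ k c, x k c = 1 → ∀ d, d ≠ c → x k d = 0 := by
    intro k c hc d hd
    have h1 : ∑ e ∈ ({c, d} : Finset (Fin r)), x k e ≤ ∑ e, x k e :=
      Finset.sum_le_sum_of_subset_of_nonneg (Finset.subset_univ _) (fun e _ _ => x1 k e)
    rw [Finset.sum_pair hd.symm, x2, hc] at h1
    have := x1 k d
    linarith
  have hex : ∀ k, ∃ A : Fin r → Set unitInterval, (∀ c, MeasurableSet (A c)) ∧
      (∀ c d, c ≠ d → Disjoint (A c) (A d)) ∧ (⋃ c, A c) = Set.univ ∧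
      (∀ c j, (μ k j).real (A c) = x k c * (μ k j).real Set.univ) ∧
      ∀ c, x k c = 1 → A c = Set.univ := by
    intro k
    by_cases h : ∃ c, x k c = 1
    · obtain ⟨c, hc⟩ := h
      refine ⟨fun d => if d = c then Set.univ else ∅, fun d => ?_, fun d e hde => ?_, ?_,
        fun d j => ?_, fun d hd => ?_⟩
      · simp only
        split_ifs
        · exact MeasurableSet.univ
        · exact MeasurableSet.empty
      · simp only
        by_cases h1 : d = c
        · rw [if_neg (show ¬ e = c from fun h2 => hde (h1.trans h2.symm))]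
          exact Set.disjoint_empty _
        · rw [if_neg h1]
          exact Set.empty_disjoint _
      · rw [Set.eq_univ_iff_forall]
        intro w
        rw [Set.mem_iUnion]
        exact ⟨c, by simp⟩
      · simp only
        by_cases h1 : d = c
        · rw [if_pos h1, h1, hc, one_mul]
        · rw [if_neg h1, huniq k c hc d h1, measureReal_empty, zero_mul]
      · by_cases h1 : d = c
        · simp only [if_pos h1]
        · rw [huniq k c hc d h1] at hd
          exact absurd hd zero_ne_one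
    · have : ∀ j, IsFiniteMeasure (μ k j) := hfin k
      have : ∀ j, NullSingletonClass (μ k j) := fun j => ⟨hna k j⟩
      obtain ⟨A, A1, A2, A3, A4⟩ := R391.FS.lyapunov_partition (μ k) (x k) (x1 k) (x2 k)
      exact ⟨A, A1, fun c d hcd => A2 hcd, A3, A4, fun c hc => absurd ⟨c, hc⟩ h⟩
  choose A A1 A2 A3 A4 A5 using hex
  refine ⟨A, A1, A2, A3, fun c j => ?_, ?_, fun c => ?_⟩
  · simp_rw [A4]
    exact x3 c j
  · rw [mul_comm]
    refine le_trans ?_ x4'
    rw [Set.ncard_eq_toFinset_card']
    apply Finset.card_le_card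
    intro k hk
    rw [Set.mem_toFinset] at hk
    rw [Finset.mem_filter]
    exact ⟨Finset.mem_univ _, fun c hc => hk c (A5 k c hc)⟩
  · have h1 : ((Finset.univ.filter (fun k => x k c = 1)).card : ℤ) ≤
        ({k | A k c = Set.univ}.ncard : ℤ) := by
      rw [Set.ncard_eq_toFinset_card']
      exact_mod_cast Finset.card_le_card (fun k hk => by
        rw [Finset.mem_filter] at hk
        rw [Set.mem_toFinset]
        exact A5 k c hk.2)
    refine le_trans ?_ ((x5' c).trans h1)
    have hr0 : (0 : ℝ) < r := by exact_mod_cast hr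
    have hrz : (0 : ℤ) < (r : ℤ) := by exact_mod_cast hr
    have h2 := Int.lt_ediv_add_one_mul_self ((n : ℤ) - ((m * (r - 1) : ℕ) : ℤ)) hrz
    rw [← Int.lt_add_one_iff, Int.floor_lt, div_lt_iff₀ hr0]
    have h3 : ((((n : ℤ) - ((m * (r - 1) : ℕ) : ℤ)) : ℤ) : ℝ) <
        (((((n : ℤ) - ((m * (r - 1) : ℕ) : ℤ)) / (r : ℤ) + 1) * (r : ℤ) : ℤ) : ℝ) := by
      exact_mod_cast h2
    have h4 : ((((n : ℤ) - ((m * (r - 1) : ℕ) : ℤ)) : ℤ) : ℝ) = (n : ℝ) - m * (r - 1) := by
      push_cast [Nat.cast_sub (Nat.succ_le_of_lt hr)]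
      ring
    rw [h4] at h3
    push_cast at h3 ⊢
    exact h3

end Pool.Agent.Results.MP_2806c7_co.FairSplitting
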